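import Mathlib

/-!
# Polynomials with bounded denominators and bounded complex roots
-/

set_option autoImplicit false

namespace Pool.Agent.H52.TL

open Polynomial

/-- rational over `E`, `d` times the coefficients are integral, the complex roots are at most `b` -/
def Bdd {k E : Type} [Field k] [Field E] (ι : E →+* k) (d : ℕ) (b : ℝ) (f : k[X]) : Prop :=
  ∃ g : E[X], g.map ι = f ∧ (∀ i, IsIntegral ℤ ((d : E) * g.coeff i)) ∧
    ∀ (φ : E →+* ℂ) (z : ℂ), (g.map φ).eval z = 0 → ‖z‖ ≤ b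

theorem bdd_finite {k E : Type} [Field k] [Field E] [NumberField E] (ι : E →+* k)
    (n d : ℕ) (b : ℝ) (hd : 0 < d) :
    {f : k[X] | Bdd ι d b f ∧ f.Monic ∧ f.natDegree = n}.Finite := by
  classical
  obtain ⟨C, hC⟩ : ∃ C : ℝ, C = max b 1 ^ n * (n.choose (n / 2) : ℝ) := ⟨_, rfl⟩
  have hdE : (d : E) ≠ 0 := by exact_mod_cast hd.ne'
  have h0 := NumberField.Embeddings.finite_of_norm_le E ℂ (d * C)
  have h1 : {g : E[X] | g.natDegree = n ∧ ∀ i, (d : E) * g.coeff i ∈
      {x : E | IsIntegral ℤ x ∧ ∀ φ : E →+* ℂ, ‖φ x‖ ≤ d * C}}.Finite := by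
    refine Set.Finite.of_finite_image (f := fun (g : E[X]) (i : Fin (n + 1)) =>
      (d : E) * g.coeff i) ((Set.Finite.pi' (fun _ : Fin (n + 1) => h0)).subset ?_) ?_
    · rintro _ ⟨g, ⟨-, hg⟩, rfl⟩ i
      exact hg i
    · rintro g ⟨hg, -⟩ g' ⟨hg', -⟩ h
      ext i
      by_cases hi : i < n + 1
      · exact mul_left_cancel₀ hdE (congrFun h ⟨i, hi⟩)
      · rw [Polynomial.coeff_eq_zero_of_natDegree_lt (by omega),
          Polynomial.coeff_eq_zero_of_natDegree_lt (by omega)]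
  refine (h1.image fun g : E[X] => g.map ι).subset ?_
  rintro _ ⟨⟨g, rfl, hint, hb⟩, h3, h4⟩
  have hm : g.Monic := by
    have h5 : ι g.leadingCoeff = 1 := by
      rw [← Polynomial.leadingCoeff_map ι]
      exact h3
    exact ι.injective (h5.trans (map_one ι).symm)
  have hdeg : g.natDegree = n := by rwa [Polynomial.natDegree_map] at h4
  refine ⟨g, ⟨hdeg, fun i => ⟨hint i, fun φ => ?_⟩⟩, rfl⟩
  have h2 := Polynomial.coeff_bdd_of_roots_le (B := b) (d := n) φ hm
    (IsAlgClosed.splits _) hdeg.le (fun z hz => by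
      rw [Polynomial.mem_roots (hm.map φ).ne_zero, Polynomial.IsRoot.def] at hz
      exact hb φ z hz) i
  rw [Polynomial.coeff_map, ← hC] at h2
  rw [map_mul, map_natCast, norm_mul, Complex.norm_natCast]
  exact mul_le_mul_of_nonneg_left h2 (Nat.cast_nonneg d)

end Pool.Agent.H52.TL
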