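import Pool.Agent.H52.TL.Norm

/-!
# Subquotients occur modulo all powers of `p`
-/

set_option autoImplicit false

namespace Pool.Agent.H52.TL

open Matrix Module Pool.Agent.R401.Sbq

variable {G : Type} [Group G] {k : Type} [NormedField k] {n N : ℕ}
variable {p : ℕ} [Fact p.Prime] [NormedAlgebra ℚ_[p] k] [FiniteDimensional ℚ_[p] k]

include p in
omit [FiniteDimensional ℚ_[p] k] in
theorem norm_natCast_le (a : ℕ) : ‖(a : k)‖ ≤ 1 := by
  rw [← map_natCast (algebraMap ℚ_[p] k) a, norm_algebraMap']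
  exact Padic.norm_int_le_one (p := p) a

include p in
omit [FiniteDimensional ℚ_[p] k] in
theorem ultra : IsUltrametricDist k :=
  IsUltrametricDist.isUltrametricDist_of_forall_norm_natCast_le_one
    (fun a => norm_natCast_le (p := p) a)

include p in
/-- A good basis of the lattice. -/
theorem exists_basis (Y : Submodule k (Fin N → k)) (f : (Fin N → k) →ₗ[k] (Fin n → k))
    (hf : Y.map f = ⊤) : ∃ (y : Fin n → (Fin N → k)) (B : GL (Fin n) k),
      (∀ i, y i ∈ Y ∧ ∀ j, ‖y i j‖ ≤ 1) ∧ (∀ i r, (B : Matrix (Fin n) (Fin n) k) r i = f (y i) r) ∧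
      ∀ z ∈ Y, (∀ j, ‖z j‖ ≤ 1) →
        ∀ i, ‖(((B⁻¹ : GL (Fin n) k) : Matrix (Fin n) (Fin n) k) *ᵥ f z) i‖ ≤ 1 := by
  classical
  have hp1 : (1 : ℝ) < p := by exact_mod_cast (Fact.out : p.Prime).one_lt
  have hprop : ProperSpace (Fin N → k) := FiniteDimensional.proper ℚ_[p] (Fin N → k)
  -- the lattice
  set L : Set (Fin N → k) := {z | z ∈ Y ∧ ‖z‖ ≤ 1} with hL
  have hLc : IsCompact L := by
    have h1 : IsClosed (Y : Set (Fin N → k)) :=
      (Y.restrictScalars ℚ_[p]).closed_of_finiteDimensional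
    have h2 : L = (Y : Set (Fin N → k)) ∩ Metric.closedBall 0 1 := by
      ext z
      rw [hL, Set.mem_ofPred_eq, Set.mem_inter_iff, Metric.mem_closedBall, dist_zero_right]
      rfl
    rw [h2]
    exact (isCompact_closedBall 0 1).inter_left h1
  have hnorm : ∀ z : Fin N → k, ‖z‖ ≤ 1 ↔ ∀ j, ‖z j‖ ≤ 1 := fun z =>
    pi_norm_le_iff_of_nonneg zero_le_one
  -- continuity
  have hfc : Continuous f := (f.restrictScalars ℚ_[p]).continuous_of_finiteDimensional
  let D : (Fin n → (Fin N → k)) → ℝ := fun y => ‖(Matrix.of fun r i => f (y i) r).det‖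
  have hD : Continuous D := by
    apply Continuous.norm
    apply Continuous.matrix_det
    refine continuous_matrix fun r i => ?_
    exact (continuous_apply r).comp (hfc.comp (continuous_apply i))
  have hLn : IsCompact (Set.pi Set.univ fun _ : Fin n => L) := isCompact_univ_pi fun _ => hLc
  have h0 : (fun _ : Fin n => (0 : Fin N → k)) ∈ Set.pi Set.univ fun _ : Fin n => L := by
    intro i _
    exact ⟨Y.zero_mem, by rw [norm_zero]; exact zero_le_one⟩
  obtain ⟨y, hy, hmax⟩ := hLn.exists_isMaxOn ⟨_, h0⟩ hD.continuousOn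
  have hmax' : ∀ y' : Fin n → (Fin N → k), (∀ i, y' i ∈ L) → D y' ≤ D y := fun y' h =>
    hmax (fun i _ => h i)
  -- the maximum is positive
  have hpos : 0 < D y := by
    have hex : ∀ i : Fin n, ∃ z ∈ Y, f z = Pi.single i 1 := by
      intro i
      have h1 : (Pi.single i 1 : Fin n → k) ∈ Y.map f := by
        rw [hf]
        trivial
      exact h1
    choose z hz1 hz2 using hex
    obtain ⟨C, hC⟩ : ∃ C : ℝ, ∀ i, ‖z i‖ ≤ C :=
      ⟨∑ i, ‖z i‖, fun i => Finset.single_le_sum (f := fun i => ‖z i‖)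
        (fun _ _ => norm_nonneg _) (Finset.mem_univ i)⟩
    obtain ⟨e, he⟩ := pow_unbounded_of_one_lt C hp1
    have h1 : ∀ i, (p : k) ^ e • z i ∈ L := by
      intro i
      refine ⟨Y.smul_mem _ (hz1 i), ?_⟩
      rw [norm_smul, norm_p_pow, inv_mul_le_iff₀ (by positivity), mul_one]
      exact (hC i).trans he.le
    refine lt_of_lt_of_le ?_ (hmax' (fun i => (p : k) ^ e • z i) h1)
    have h2 : (Matrix.of fun r i => f ((p : k) ^ e • z i) r) =
        (p : k) ^ e • (1 : Matrix (Fin n) (Fin n) k) := by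
      ext r i
      rw [Matrix.of_apply, map_smul, hz2, Pi.smul_apply, Matrix.smul_apply, Matrix.one_apply,
        Pi.single_apply]
    show 0 < ‖(Matrix.of fun r i => f ((p : k) ^ e • z i) r).det‖
    rw [h2, Matrix.det_smul, Matrix.det_one, mul_one, norm_pow, norm_p_pow]
    positivity
  set B : Matrix (Fin n) (Fin n) k := Matrix.of fun r i => f (y i) r with hB
  have hdet : B.det ≠ 0 := norm_pos_iff.1 hpos
  have hunit : IsUnit B := (Matrix.isUnit_iff_isUnit_det B).2 (isUnit_iff_ne_zero.2 hdet)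
  obtain ⟨B', hB'⟩ := hunit
  refine ⟨y, B', fun i => ⟨(hy i trivial).1, (hnorm _).1 (hy i trivial).2⟩, fun i r => ?_, ?_⟩
  · rw [hB']
    rfl
  · intro z hz hz1 i
    have h1 : B *ᵥ Matrix.cramer B (f z) = B.det • f z := Matrix.mulVec_cramer B (f z)
    have h2 : ((B'⁻¹ : GL (Fin n) k) : Matrix (Fin n) (Fin n) k) *ᵥ f z =
        (B.det)⁻¹ • Matrix.cramer B (f z) := by
      have h3 : f z = (B.det)⁻¹ • (B *ᵥ Matrix.cramer B (f z)) := by
        rw [h1, smul_smul, inv_mul_cancel₀ hdet, one_smul]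
      conv_lhs => rw [h3]
      rw [Matrix.mulVec_smul, ← hB', Matrix.mulVec_mulVec, ← Units.val_mul, inv_mul_cancel,
        Units.val_one, Matrix.one_mulVec]
    rw [h2, Pi.smul_apply, smul_eq_mul, norm_mul, norm_inv, Matrix.cramer_apply,
      inv_mul_le_iff₀ (norm_pos_iff.2 hdet), mul_one]
    have h4 : B.updateCol i (f z) = Matrix.of fun r j => f (Function.update y i z j) r := by
      ext r j
      rw [Matrix.updateCol_apply, Matrix.of_apply]
      by_cases hj : j = i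
      · rw [if_pos hj, hj, Function.update_self]
      · rw [if_neg hj, Function.update_of_ne hj]
        rfl
    rw [h4]
    refine hmax' (Function.update y i z) fun j => ?_
    by_cases hj : j = i
    · rw [hj, Function.update_self]
      exact ⟨hz, (hnorm z).2 hz1⟩
    · rw [Function.update_of_ne hj]
      exact hy j trivial

theorem occ_of_isSub {R : G →* GL (Fin n) k} {S : G →* GL (Fin N) k}
    (hint : ∀ g i j, ‖(S g : Matrix (Fin N) (Fin N) k) i j‖ ≤ 1)
    (h : IsSub (mt R) (mt S)) (m : ℕ) : Occ p m R S := by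
  classical
  have hu : IsUltrametricDist k := ultra (p := p)
  have hp0 : (0 : ℝ) < p := by exact_mod_cast (Fact.out : p.Prime).pos
  have hpk : ∀ e : ℕ, (p : k) ^ e ≠ 0 := by
    intro e h0
    have h1 := norm_p_pow (p := p) (k := k) e
    rw [h0, norm_zero] at h1
    have h2 : (0 : ℝ) < ((p : ℝ) ^ e)⁻¹ := by positivity
    linarith
  obtain ⟨Y, f, hY, hf, hfg⟩ := h
  obtain ⟨y, B, hy, hB, hBz⟩ := exists_basis (p := p) Y f hf
  -- columns
  have hcol : ∀ (X : Matrix (Fin n) (Fin n) k) (i j : Fin n),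
      (((B⁻¹ : GL (Fin n) k) : Matrix (Fin n) (Fin n) k) * X * (B : Matrix (Fin n) (Fin n) k)) i j =
        (((B⁻¹ : GL (Fin n) k) : Matrix (Fin n) (Fin n) k) *ᵥ (X *ᵥ f (y j))) i := by
    intro X i j
    have h1 : (B : Matrix (Fin n) (Fin n) k).col j = f (y j) := by
      ext r
      rw [Matrix.col_apply, hB]
    rw [← h1, Matrix.mulVec_mulVec, ← Matrix.mulVec_single_one, Matrix.mulVec_mulVec,
      Matrix.mulVec_single_one, Matrix.col_apply]
  -- the action of sums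
  have hact : ∀ (s : Finset G) (c : G → k), ∀ z ∈ Y,
      (∑ g ∈ s, c g • (S g : Matrix (Fin N) (Fin N) k)) *ᵥ z ∈ Y ∧
      f ((∑ g ∈ s, c g • (S g : Matrix (Fin N) (Fin N) k)) *ᵥ z) =
        (∑ g ∈ s, c g • (R g : Matrix (Fin n) (Fin n) k)) *ᵥ f z := by
    intro s c z hz
    have h1 : (∑ g ∈ s, c g • (S g : Matrix (Fin N) (Fin N) k)) *ᵥ z =
        ∑ g ∈ s, c g • ((S g : Matrix (Fin N) (Fin N) k) *ᵥ z) := by
      rw [Matrix.sum_mulVec]
      exact Finset.sum_congr rfl fun g _ => Matrix.smul_mulVec _ _ _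
    have h2 : (∑ g ∈ s, c g • (R g : Matrix (Fin n) (Fin n) k)) *ᵥ f z =
        ∑ g ∈ s, c g • ((R g : Matrix (Fin n) (Fin n) k) *ᵥ f z) := by
      rw [Matrix.sum_mulVec]
      exact Finset.sum_congr rfl fun g _ => Matrix.smul_mulVec _ _ _
    rw [h1, h2]
    refine ⟨Submodule.sum_mem _ fun g _ => Y.smul_mem _ (hY g z hz), ?_⟩
    rw [map_sum]
    refine Finset.sum_congr rfl fun g _ => ?_
    rw [map_smul]
    congr 1
    exact hfg g z hz
  have hmul : ∀ (X : Matrix (Fin N) (Fin N) k) (C : ℝ) (_ : 0 ≤ C) (_ : ∀ i j, ‖X i j‖ ≤ C)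
      (z : Fin N → k) (_ : ∀ j, ‖z j‖ ≤ 1) (i : Fin N), ‖(X *ᵥ z) i‖ ≤ C := by
    intro X C hC hX z hz i
    show ‖∑ j, X i j * z j‖ ≤ C
    refine IsUltrametricDist.norm_sum_le_of_forall_le_of_nonneg (M := k) hC fun j _ => ?_
    rw [norm_mul]
    calc ‖X i j‖ * ‖z j‖ ≤ C * 1 := mul_le_mul (hX i j) (hz j) (norm_nonneg _) hC
      _ = C := mul_one C
  have hgen : ∀ (s : Finset G) (c : G → k) (e : ℕ),
      (∀ i j, ‖(∑ g ∈ s, c g • (S g : Matrix (Fin N) (Fin N) k)) i j‖ ≤ ((p : ℝ) ^ e)⁻¹) →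
      ∀ i j, ‖(((B⁻¹ : GL (Fin n) k) : Matrix (Fin n) (Fin n) k) *
        (∑ g ∈ s, c g • (R g : Matrix (Fin n) (Fin n) k)) * (B : Matrix (Fin n) (Fin n) k)) i j‖ ≤
          ((p : ℝ) ^ e)⁻¹ := by
    intro s c e hs i j
    obtain ⟨h1, h2⟩ := hact s c (y j) (hy j).1
    rw [hcol, ← h2]
    set X := ∑ g ∈ s, c g • (S g : Matrix (Fin N) (Fin N) k) with hX
    set z : Fin N → k := ((p : k) ^ e)⁻¹ • (X *ᵥ y j) with hz
    have h3 : X *ᵥ y j = (p : k) ^ e • z := by
      rw [hz, smul_smul, mul_inv_cancel₀ (hpk e), one_smul]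
    have h4 : ∀ l, ‖z l‖ ≤ 1 := by
      intro l
      rw [hz, Pi.smul_apply, smul_eq_mul, norm_mul, norm_inv, norm_p_pow, inv_inv]
      have h5 := hmul X _ (by positivity) hs (y j) (hy j).2 l
      calc (p : ℝ) ^ e * ‖(X *ᵥ y j) l‖ ≤ (p : ℝ) ^ e * ((p : ℝ) ^ e)⁻¹ :=
            mul_le_mul_of_nonneg_left h5 (by positivity)
        _ = 1 := mul_inv_cancel₀ (by positivity)
    rw [h3, map_smul, Matrix.mulVec_smul, Pi.smul_apply, smul_eq_mul, norm_mul, norm_p_pow]
    calc ((p : ℝ) ^ e)⁻¹ * _ ≤ ((p : ℝ) ^ e)⁻¹ * 1 :=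
          mul_le_mul_of_nonneg_left (hBz z (Y.smul_mem _ h1) h4 i) (by positivity)
      _ = ((p : ℝ) ^ e)⁻¹ := mul_one _
  refine ⟨B⁻¹, fun g i j => ?_, fun s c _ hs i j => ?_⟩
  · have h1 := hgen {g} (fun _ => 1) 0 (by
      intro i j
      rw [Finset.sum_singleton, one_smul, pow_zero, inv_one]
      exact hint g i j) i j
    rw [Finset.sum_singleton, one_smul, pow_zero, inv_one] at h1
    rw [inv_inv, Units.val_mul, Units.val_mul]
    exact h1
  · rw [sum_conj, inv_inv]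
    exact hgen s c m hs i j

end Pool.Agent.H52.TL
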