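import Pool.Agent.H52.TL.Norm
import Pool.Agent.H52.TL.Conv

/-!
# Finitely many traces, profinite groups with finitely many open subgroups of each index
-/

set_option autoImplicit false

namespace Pool.Agent.H52.TL

open Matrix Module Polynomial Pool.Agent.R401.Sbq

section abs

variable {G : Type} [Group G] [TopologicalSpace G] [IsTopologicalGroup G] [CompactSpace G]
  {k : Type} [NormedField k] {X : Type}

/-- admissible representations -/
structure AdmX (R : Subgroup G) (Frob : X → Set G) (Φ : X → Set k[X]) (T : Finset X) {n : ℕ}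
    (ρ : G →* GL (Fin n) k) : Prop where
  cont : Continuous ρ
  triv : ∀ g ∈ R, ρ g = 1
  frob : ∀ x ∈ T, ∀ σ ∈ Frob x, (ρ σ : Matrix (Fin n) (Fin n) k).charpoly ∈ Φ x

theorem finite_traces_abs (R : Subgroup G) (hR : ∀ D : ℕ, {H : Subgroup G | H.Normal ∧
      IsOpen (H : Set G) ∧ R ≤ H ∧ H.index ≤ D}.Finite) (Frob : X → Set G)
    (hF : Dense (⋃ x, Frob x)) (p : ℕ) [Fact p.Prime] [NormedAlgebra ℚ_[p] k]
    [FiniteDimensional ℚ_[p] k] (n : ℕ) (Φ : X → Set k[X]) (hΦ : ∀ x, (Φ x).Finite) :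
    ∃ T : Finset X, {t : G → k | ∃ ρ : G →* GL (Fin n) k, AdmX R Frob Φ T ρ ∧
      (fun g => (ρ g : Matrix (Fin n) (Fin n) k).trace) = t}.Finite := by
  classical
  let : Algebra ℤ_[p] k := ((algebraMap ℚ_[p] k).comp (algebraMap ℤ_[p] ℚ_[p])).toAlgebra
  have hst : IsScalarTower ℤ_[p] ℚ_[p] k := IsScalarTower.of_algebraMap_eq fun x => rfl
  let A : Type := Matrix (Fin n) (Fin n) k × Matrix (Fin n) (Fin n) k
  let D : ℕ := (p ^ (2 * finrank k A * finrank ℚ_[p] (⊤ : Submodule ℚ_[p] k))) ^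
    (p ^ (2 * finrank k A * finrank ℚ_[p] (⊤ : Submodule ℚ_[p] k)))
  let U : Subgroup G := ⨅ H ∈ (hR D).toFinset, H
  have hUle : ∀ H ∈ (hR D).toFinset, U ≤ H := fun H hH => iInf₂_le H hH
  have hUo : IsOpen (U : Set G) := by
    have h1 : (U : Set G) = ⋂ H ∈ (hR D).toFinset, (H : Set G) := by
      simp only [U, Subgroup.coe_iInf]
    rw [h1]
    exact isOpen_biInter_finset fun H hH => ((hR D).mem_toFinset.1 hH).2.1
  have hUn : U.Normal := by
    refine ⟨fun u hu g => ?_⟩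
    simp only [U, Subgroup.mem_iInf] at hu ⊢
    intro H hH
    exact ((hR D).mem_toFinset.1 hH).1.conj_mem u (hu H hH) g
  have hfin : Finite (G ⧸ U) := Subgroup.quotient_finite_of_isOpen U hUo
  -- Frobenius elements in all cosets
  have hex : ∀ c : G ⧸ U, ∃ x : X, ∃ σ ∈ Frob x, (σ : G ⧸ U) = c := by
    intro c
    obtain ⟨g, rfl⟩ := QuotientGroup.mk_surjective c
    have h1 : IsOpen ((fun y : G => g⁻¹ * y) ⁻¹' (U : Set G)) :=
      hUo.preimage (continuous_const_mul _)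
    obtain ⟨σ, hσ1, hσ2⟩ := hF.inter_open_nonempty _ h1 ⟨g, by
      rw [Set.mem_preimage, inv_mul_cancel]
      exact U.one_mem⟩
    obtain ⟨x, hx⟩ := Set.mem_iUnion.1 hσ2
    refine ⟨x, σ, hx, ?_⟩
    exact (QuotientGroup.eq.2 hσ1).symm
  choose x σ hσ hσc using hex
  have : Fintype (G ⧸ U) := Fintype.ofFinite _
  refine ⟨Finset.univ.image x, ?_⟩
  refine Set.Finite.of_finite_image (f := fun (t : G → k) (c : G ⧸ U) => t (σ c))
    (Set.Finite.subset (Set.Finite.pi' (fun c : G ⧸ U =>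
      ((hΦ (x c)).image (fun f : k[X] => -f.nextCoeff)))) ?_) ?_
  · rintro _ ⟨t, ht, rfl⟩ c
    obtain ⟨ρ, hρ, rfl⟩ := ht
    refine ⟨(ρ (σ c) : Matrix (Fin n) (Fin n) k).charpoly, ?_, ?_⟩
    · exact hρ.frob (x c) (Finset.mem_image_of_mem _ (Finset.mem_univ c)) _ (hσ c)
    · show -(ρ (σ c) : Matrix (Fin n) (Fin n) k).charpoly.nextCoeff =
        (ρ (σ c) : Matrix (Fin n) (Fin n) k).trace
      rw [Matrix.trace_eq_neg_charpoly_nextCoeff]
  · intro t ht t' ht' heq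
    obtain ⟨ρ, hρ, rfl⟩ := ht
    obtain ⟨ρ', hρ', rfl⟩ := ht'
    let τ₁ : A →ₗ[k] k := (Matrix.traceLinearMap (Fin n) k k) ∘ₗ LinearMap.fst k _ _
    let τ₂ : A →ₗ[k] k := (Matrix.traceLinearMap (Fin n) k k) ∘ₗ LinearMap.snd k _ _
    let r : G →* A := MonoidHom.prod ((Units.coeHom _).comp ρ) ((Units.coeHom _).comp ρ')
    have hr : ∀ g, r g = ((ρ g : Matrix (Fin n) (Fin n) k), (ρ' g : Matrix (Fin n) (Fin n) k)) :=
      fun g => rfl
    have hct : ∀ ρ : G →* GL (Fin n) k, Continuous ρ →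
        Continuous fun g => (ρ g : Matrix (Fin n) (Fin n) k).trace := fun ρ h =>
      (Units.continuous_val.comp h).matrix_trace
    obtain ⟨H, hHn, hHo, hHi, hHker, hH⟩ := Pool.Agent.Y800.falt_core (ℓ := p) (k := k) r τ₁ τ₂
      (fun x y => Matrix.trace_mul_comm x.1 y.1) (fun x y => Matrix.trace_mul_comm x.2 y.2)
      (hct ρ hρ.cont) (hct ρ' hρ'.cont) ⊤ (fun g => Submodule.mem_top) (fun g => Submodule.mem_top)
    have hRH : R ≤ H := by
      intro g hg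
      apply hHker
      rw [hr, hρ.triv g hg, hρ'.triv g hg]
      rfl
    have hUH : U ≤ H := hUle H ((hR D).mem_toFinset.2 ⟨hHn, hHo, hRH, hHi⟩)
    funext g
    refine hH (Set.range σ) ?_ ?_ g
    · intro g
      refine ⟨σ (g : G ⧸ U), ⟨_, rfl⟩, hUH ?_⟩
      have h1 : g⁻¹ * σ (g : G ⧸ U) ∈ U := QuotientGroup.eq.1 (hσc (g : G ⧸ U)).symm
      have h2 := hUn.conj_mem _ h1 g
      have h3 : g * (g⁻¹ * σ (g : G ⧸ U)) * g⁻¹ = σ (g : G ⧸ U) * g⁻¹ := by group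
      rwa [h3] at h2
    · rintro _ ⟨c, rfl⟩
      exact congrFun heq c

/-- **The level.** -/
theorem level_abs (R : Subgroup G) (hR : ∀ D : ℕ, {H : Subgroup G | H.Normal ∧
      IsOpen (H : Set G) ∧ R ≤ H ∧ H.index ≤ D}.Finite) (Frob : X → Set G)
    (hF : Dense (⋃ x, Frob x)) (p : ℕ) [Fact p.Prime] [NormedAlgebra ℚ_[p] k]
    [FiniteDimensional ℚ_[p] k] (n N : ℕ) (Φ Ψ : X → Set k[X]) (hΦ : ∀ x, (Φ x).Finite)
    (hΨ : ∀ x, (Ψ x).Finite) :
    ∃ (T : Finset X) (m : ℕ), ∀ (ρ : G →* GL (Fin n) k) (W : G →* GL (Fin N) k),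
      AdmX R Frob Φ T ρ → Irr (mt ρ) → AdmX R Frob Ψ T W → Occ p m ρ W → IsSub (mt ρ) (mt W) := by
  classical
  obtain ⟨T₁, h1⟩ := finite_traces_abs R hR Frob hF p n Φ hΦ
  obtain ⟨T₂, h2⟩ := finite_traces_abs R hR Frob hF p N Ψ hΨ
  choose l hl using fun (s t : G → k) => exists_level (p := p) s t n N
  refine ⟨T₁ ∪ T₂, h1.toFinset.sup fun s => h2.toFinset.sup fun t => l s t, ?_⟩
  intro ρ W hρ hirr hW hocc
  have h3 : (fun g => (ρ g : Matrix (Fin n) (Fin n) k).trace) ∈ h1.toFinset := h1.mem_toFinset.2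
    ⟨ρ, ⟨hρ.cont, hρ.triv, fun x hx => hρ.frob x (Finset.mem_union_left _ hx)⟩, rfl⟩
  have h4 : (fun g => (W g : Matrix (Fin N) (Fin N) k).trace) ∈ h2.toFinset := h2.mem_toFinset.2
    ⟨W, ⟨hW.cont, hW.triv, fun x hx => hW.frob x (Finset.mem_union_right _ hx)⟩, rfl⟩
  refine hl _ _ ρ W (fun _ => rfl) (fun _ => rfl) hirr (hocc.mono ?_)
  exact (Finset.le_sup (f := fun t => l (fun g => (ρ g : Matrix (Fin n) (Fin n) k).trace) t)
    h4).trans (Finset.le_sup (f := fun s => h2.toFinset.sup fun t => l s t) h3)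

end abs

end Pool.Agent.H52.TL
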