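import Pool.Agent.H52.TL.Basic

/-!
# Occurrence modulo a power of `p`
-/

set_option autoImplicit false

namespace Pool.Agent.H52.TL

open Matrix Module Pool.Agent.R401.Sbq

section norm

variable {G : Type} [Group G] {k : Type} [NormedField k] {n N : ℕ}

/-- the matrices of a representation -/
noncomputable def mt (R : G →* GL (Fin n) k) : G →* Matrix (Fin n) (Fin n) k :=
  (Units.coeHom _).comp R

theorem mt_apply (R : G →* GL (Fin n) k) (g : G) : mt R g = (R g : Matrix (Fin n) (Fin n) k) := rfl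

/-- occurrence modulo `p ^ m` -/
def Occ (p m : ℕ) (R : G →* GL (Fin n) k) (S : G →* GL (Fin N) k) : Prop :=
  ∃ A : GL (Fin n) k,
    (∀ g i j, ‖((A * R g * A⁻¹ : GL (Fin n) k) : Matrix (Fin n) (Fin n) k) i j‖ ≤ 1) ∧
    ∀ (s : Finset G) (c : G → k), (∀ g ∈ s, ‖c g‖ ≤ 1) →
      (∀ i j, ‖(∑ g ∈ s, c g • (S g : Matrix (Fin N) (Fin N) k)) i j‖ ≤ ((p : ℝ) ^ m)⁻¹) →
      ∀ i j, ‖(∑ g ∈ s, c g • ((A * R g * A⁻¹ : GL (Fin n) k) : Matrix (Fin n) (Fin n) k)) i j‖ ≤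
        ((p : ℝ) ^ m)⁻¹

theorem sum_conj (R : G →* GL (Fin n) k) (A : GL (Fin n) k) (s : Finset G) (c : G → k) :
    ∑ g ∈ s, c g • ((A * R g * A⁻¹ : GL (Fin n) k) : Matrix (Fin n) (Fin n) k) =
      (A : Matrix (Fin n) (Fin n) k) * (∑ g ∈ s, c g • (R g : Matrix (Fin n) (Fin n) k)) *
        ((A⁻¹ : GL (Fin n) k) : Matrix (Fin n) (Fin n) k) := by
  rw [Finset.mul_sum, Finset.sum_mul]
  refine Finset.sum_congr rfl fun g _ => ?_
  rw [Units.val_mul, Units.val_mul, mul_smul_comm, smul_mul_assoc]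

theorem occ_bound {p m : ℕ} {R : G →* GL (Fin n) k} {S : G →* GL (Fin N) k} (h : Occ p m R S)
    (u : MonoidAlgebra k G) (v : Fin n → k) (hv : v ≠ 0) (hR : ev (mt R) u *ᵥ v = v)
    (hS : ev (mt S) u = 0) (c₀ : k) (hc : ∀ g, ‖c₀ * u.coeff g‖ ≤ 1) :
    ‖c₀‖ ≤ n * ((p : ℝ) ^ m)⁻¹ := by
  classical
  obtain ⟨A, -, hA⟩ := h
  have hsum : ∀ {r : ℕ} (T : G →* GL (Fin r) k),
      ∑ g ∈ u.coeff.support, (c₀ * u.coeff g) • (T g : Matrix (Fin r) (Fin r) k) =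
        c₀ • ev (mt T) u := by
    intro r T
    rw [ev_eq_sum, Finset.smul_sum]
    refine Finset.sum_congr rfl fun g _ => ?_
    rw [mul_smul, mt_apply]
  have hpos : (0 : ℝ) ≤ ((p : ℝ) ^ m)⁻¹ := by positivity
  have h1 := hA u.coeff.support (fun g => c₀ * u.coeff g) (fun g _ => hc g) (by
    intro i j
    rw [hsum, hS, smul_zero, Matrix.zero_apply, norm_zero]
    exact hpos)
  rw [sum_conj, hsum] at h1
  set B : Matrix (Fin n) (Fin n) k := (A : Matrix (Fin n) (Fin n) k) * (c₀ • ev (mt R) u) *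
    ((A⁻¹ : GL (Fin n) k) : Matrix (Fin n) (Fin n) k) with hB
  set z : Fin n → k := (A : Matrix (Fin n) (Fin n) k) *ᵥ v with hz
  have hAz : ((A⁻¹ : GL (Fin n) k) : Matrix (Fin n) (Fin n) k) *ᵥ z = v := by
    rw [hz, Matrix.mulVec_mulVec, ← Units.val_mul, inv_mul_cancel, Units.val_one,
      Matrix.one_mulVec]
  have hz0 : z ≠ 0 := by
    intro h0
    rw [h0, Matrix.mulVec_zero] at hAz
    exact hv hAz.symm
  have hBz : B *ᵥ z = c₀ • z := by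
    rw [hB, ← Matrix.mulVec_mulVec, hAz, ← Matrix.mulVec_mulVec, Matrix.smul_mulVec, hR,
      Matrix.mulVec_smul]
  obtain ⟨i₁, hi₁⟩ : ∃ i, z i ≠ 0 := by
    by_contra hcon
    push Not at hcon
    exact hz0 (funext hcon)
  have : Nonempty (Fin n) := ⟨i₁⟩
  obtain ⟨i₀, hi₀⟩ := Finite.exists_max fun i => ‖z i‖
  have hpos' : 0 < ‖z i₀‖ := lt_of_lt_of_le (norm_pos_iff.2 hi₁) (hi₀ i₁)
  have h2 : ‖c₀‖ * ‖z i₀‖ ≤ n * ((p : ℝ) ^ m)⁻¹ * ‖z i₀‖ := by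
    calc ‖c₀‖ * ‖z i₀‖ = ‖(B *ᵥ z) i₀‖ := by
          rw [hBz, Pi.smul_apply, smul_eq_mul, norm_mul]
      _ = ‖∑ j, B i₀ j * z j‖ := rfl
      _ ≤ ∑ j, ‖B i₀ j * z j‖ := norm_sum_le _ _
      _ ≤ ∑ _j : Fin n, ((p : ℝ) ^ m)⁻¹ * ‖z i₀‖ := by
          refine Finset.sum_le_sum fun j _ => ?_
          rw [norm_mul]
          exact mul_le_mul (h1 i₀ j) (hi₀ j) (norm_nonneg _) hpos
      _ = n * ((p : ℝ) ^ m)⁻¹ * ‖z i₀‖ := by
          rw [Finset.sum_const, Finset.card_univ, Fintype.card_fin, nsmul_eq_mul, mul_assoc]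
  exact le_of_mul_le_mul_right h2 hpos'

variable {p : ℕ} [Fact p.Prime] [NormedAlgebra ℚ_[p] k]

theorem norm_p_pow (e : ℕ) : ‖(p : k) ^ e‖ = ((p : ℝ) ^ e)⁻¹ := by
  have h1 : ‖(p : k)‖ = (p : ℝ)⁻¹ := by
    rw [← map_natCast (algebraMap ℚ_[p] k) p, norm_algebraMap', Padic.norm_p]
  rw [norm_pow, h1, inv_pow]

theorem Occ.mono {m m' : ℕ} (hm : m' ≤ m) {R : G →* GL (Fin n) k} {S : G →* GL (Fin N) k}
    (h : Occ p m R S) : Occ p m' R S := by
  obtain ⟨A, hA1, hA2⟩ := h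
  refine ⟨A, hA1, fun s c hc hS i j => ?_⟩
  have hp0 : (0 : ℝ) < p := by exact_mod_cast (Fact.out : p.Prime).pos
  have hp1 : (1 : ℝ) ≤ p := by exact_mod_cast (Fact.out : p.Prime).one_le
  obtain ⟨d, rfl⟩ := Nat.exists_eq_add_of_le hm
  have hsum : ∀ {r : ℕ} (T : G → Matrix (Fin r) (Fin r) k) (i j),
      ‖(∑ g ∈ s, ((p : k) ^ d * c g) • T g) i j‖ =
        ((p : ℝ) ^ d)⁻¹ * ‖(∑ g ∈ s, c g • T g) i j‖ := by
    intro r T i j
    rw [← norm_p_pow (p := p) (k := k) d, ← norm_mul, ← smul_eq_mul, ← Matrix.smul_apply,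
      Finset.smul_sum]
    simp_rw [smul_smul]
  have h1 := hA2 s (fun g => (p : k) ^ d * c g) (fun g hg => by
    rw [norm_mul, norm_p_pow]
    exact mul_le_one₀ (inv_le_one_of_one_le₀ (one_le_pow₀ hp1)) (norm_nonneg _) (hc g hg)) (by
    intro i j
    rw [hsum (fun g => (S g : Matrix (Fin N) (Fin N) k)) i j, pow_add, mul_inv, mul_comm]
    exact mul_le_mul_of_nonneg_right (hS i j) (by positivity)) i j
  rw [hsum (fun g => ((A * R g * A⁻¹ : GL (Fin n) k) : Matrix (Fin n) (Fin n) k)) i j, pow_add,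
    mul_inv, mul_comm] at h1
  exact le_of_mul_le_mul_right h1 (by positivity)

/-- Irreducible representations with the same trace are isomorphic. -/
theorem exists_conj [CharZero k] (R R' : G →* GL (Fin n) k) (h : Irr (mt R)) (h' : Irr (mt R'))
    (htr : ∀ g, (mt R g).trace = (mt R' g).trace) :
    ∃ B : GL (Fin n) k, ∀ g, mt R' g * B = B * mt R g := by
  have hs : ∀ R : G →* GL (Fin n) k, Irr (mt R) → Pool.Agent.R390.SF.Semis R := by
    intro R h U hU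
    rcases h.2 U (fun g x hx => hU g x hx) with h1 | h1
    · refine ⟨⊤, fun g x _ => Submodule.mem_top, ?_⟩
      rw [h1]
      exact isCompl_bot_top
    · refine ⟨⊥, fun g x hx => ?_, ?_⟩
      · rw [Submodule.mem_bot] at hx
        rw [hx, Matrix.mulVec_zero]
        exact Submodule.zero_mem _
      · rw [h1]
        exact isCompl_top_bot
  exact Pool.Agent.R390.SF.bn_ss (hs R h) (hs R' h') htr

theorem exists_level (s t : G → k) (n N : ℕ) : ∃ m : ℕ, ∀ (R : G →* GL (Fin n) k)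
    (S : G →* GL (Fin N) k), (∀ g, (mt R g).trace = s g) → (∀ g, (mt S g).trace = t g) →
      Irr (mt R) → Occ p m R S → IsSub (mt R) (mt S) := by
  classical
  have hchar : CharZero k := charZero_of_injective_algebraMap (algebraMap ℚ_[p] k).injective
  by_cases h : ∃ (R : G →* GL (Fin n) k) (S : G →* GL (Fin N) k), (∀ g, (mt R g).trace = s g) ∧
      (∀ g, (mt S g).trace = t g) ∧ Irr (mt R) ∧ ¬ IsSub (mt R) (mt S)
  swap
  · push Not at h
    exact ⟨0, fun R S h1 h2 h3 _ => h R S h1 h2 h3⟩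
  obtain ⟨R₀, S₀, hR₀, hS₀, hirr₀, hns⟩ := h
  obtain ⟨u, v, hv, hu, hu'⟩ := exists_separating (mt R₀) (mt S₀) hirr₀ hns
  have hp1 : (1 : ℝ) < p := by exact_mod_cast (Fact.out : p.Prime).one_lt
  have hp0 : (0 : ℝ) < p := by linarith
  obtain ⟨e, he⟩ : ∃ e : ℕ, ∀ g, ‖(p : k) ^ e * u.coeff g‖ ≤ 1 := by
    obtain ⟨C, hC⟩ : ∃ C : ℝ, ∀ g, ‖u.coeff g‖ ≤ C := by
      refine ⟨∑ g ∈ u.coeff.support, ‖u.coeff g‖, fun g => ?_⟩
      by_cases hg : g ∈ u.coeff.support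
      · exact Finset.single_le_sum (f := fun g => ‖u.coeff g‖) (fun _ _ => norm_nonneg _) hg
      · rw [Finsupp.notMem_support_iff.1 hg, norm_zero]
        exact Finset.sum_nonneg fun _ _ => norm_nonneg _
    obtain ⟨e, he⟩ := pow_unbounded_of_one_lt C hp1
    refine ⟨e, fun g => ?_⟩
    rw [norm_mul, norm_p_pow, inv_mul_le_iff₀ (by positivity), mul_one]
    exact (hC g).trans he.le
  refine ⟨e + n, fun R S hR hS hirr hocc => ?_⟩
  exfalso
  obtain ⟨B, hB⟩ := exists_conj R₀ R hirr₀ hirr (fun g => by rw [hR₀, hR])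
  have hBu : ev (mt R) u * B = B * ev (mt R₀) u := by
    rw [ev_eq_sum, ev_eq_sum, Finset.sum_mul, Finset.mul_sum]
    refine Finset.sum_congr rfl fun g _ => ?_
    rw [smul_mul_assoc, mul_smul_comm, hB]
  have h1 : ev (mt R) u *ᵥ ((B : Matrix (Fin n) (Fin n) k) *ᵥ v) =
      (B : Matrix (Fin n) (Fin n) k) *ᵥ v := by
    rw [Matrix.mulVec_mulVec, hBu, ← Matrix.mulVec_mulVec, hu]
  have h2 : (B : Matrix (Fin n) (Fin n) k) *ᵥ v ≠ 0 := by
    intro h0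
    apply hv
    have h3 : ((B⁻¹ : GL (Fin n) k) : Matrix (Fin n) (Fin n) k) *ᵥ
        ((B : Matrix (Fin n) (Fin n) k) *ᵥ v) = v := by
      rw [Matrix.mulVec_mulVec, ← Units.val_mul, inv_mul_cancel, Units.val_one, Matrix.one_mulVec]
    rw [← h3, h0, Matrix.mulVec_zero]
  have h3 := occ_bound hocc u _ h2 h1 (hu' (mt S) fun g => by rw [hS, hS₀]) ((p : k) ^ e) he
  rw [norm_p_pow, pow_add, mul_inv] at h3
  have h4 : (1 : ℝ) ≤ n * ((p : ℝ) ^ n)⁻¹ := by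
    have h5 : ((p : ℝ) ^ e)⁻¹ * 1 ≤ ((p : ℝ) ^ e)⁻¹ * (n * ((p : ℝ) ^ n)⁻¹) := by
      rw [mul_one]
      calc ((p : ℝ) ^ e)⁻¹ ≤ n * (((p : ℝ) ^ e)⁻¹ * ((p : ℝ) ^ n)⁻¹) := h3
        _ = _ := by ring
    exact le_of_mul_le_mul_left h5 (by positivity)
  have h6 : (n : ℝ) < (p : ℝ) ^ n := by
    exact_mod_cast Nat.lt_pow_self (Fact.out : p.Prime).one_lt
  have h7 : (n : ℝ) * ((p : ℝ) ^ n)⁻¹ < 1 := by
    rw [mul_inv_lt_iff₀ (by positivity), one_mul]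
    exact h6
  linarith

end norm

end Pool.Agent.H52.TL
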