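import Pool.Agent.H52.TL.Norm

/-!
# Finitely many traces, and the level
-/

set_option autoImplicit false

namespace Pool.Agent.H52.TL

open Matrix Module Polynomial NumberField Ideal Pool.Agent.R401.Sbq Pool.Agent.helper972_fp
open Pool.Agent.Y800 (GQ ZBar InInertia IsGeomFrob)

attribute [local instance 10] DivisionRing.toRatAlgebra

variable {F : Pool.Agent.Results.MP_f68ac8_nt.FinitePropagation.Sub} [FiniteDimensional ℚ F]
  {k : Type} [NormedField k]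

theorem finite_traces (p : ℕ) [Fact p.Prime] [NormedAlgebra ℚ_[p] k] [FiniteDimensional ℚ_[p] k]
    (n : ℕ) (S : Finset ℕ) (hS : ∀ q ∈ S, q.Prime) (Φ : Ideal (𝓞 F) → Set k[X])
    (hΦ : ∀ v, (Φ v).Finite) :
    ∃ T : Finset ℕ, (∀ q ∈ T, q.Prime ∧ q ∉ S) ∧
      {t : F.fixingSubgroup → k | ∃ ρ : F.fixingSubgroup →* GL (Fin n) k,
        Adm S ρ ∧ (∀ q ∈ T, At Φ ρ q) ∧ tr ρ = t}.Finite := by
  classical
  have hchar : CharZero k := charZero_of_injective_algebraMap (algebraMap ℚ_[p] k).injective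
  obtain ⟨Z, hZ1, hZ2⟩ := faltings F k n p S hS
  obtain ⟨T₀, hT₀⟩ : ∃ T₀ : Finset ℕ, T₀ = Z.image fun z => z.1 := ⟨_, rfl⟩
  refine ⟨T₀, ?_, ?_⟩
  · intro q hq
    rw [hT₀, Finset.mem_image] at hq
    obtain ⟨z, hz, rfl⟩ := hq
    obtain ⟨h1, h2, -⟩ := hZ1 z hz
    exact ⟨h1, h2⟩
  refine Set.Finite.of_finite_image (f := fun (t : F.fixingSubgroup → k) (z : Z) => t z.1.2.2)
    (Set.Finite.subset (Set.Finite.pi' (fun z : Z =>
      ((hΦ (z.1.2.1.under (𝓞 F))).image (fun f : k[X] => -f.nextCoeff)))) ?_) ?_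
  · rintro _ ⟨t, ht, rfl⟩ z
    obtain ⟨ρ, hρ, hρT, rfl⟩ := ht
    obtain ⟨h1, h2, h3, h4, h5⟩ := hZ1 z.1 z.2
    refine ⟨(ρ z.1.2.2 : Matrix (Fin n) (Fin n) k).charpoly, ?_, ?_⟩
    · exact hρT z.1.1 (by rw [hT₀]; exact Finset.mem_image_of_mem _ z.2) _ h3 h4 _
        (frobF_of_geom h1 h3 h4 h5)
    · show -(ρ z.1.2.2 : Matrix (Fin n) (Fin n) k).charpoly.nextCoeff = tr ρ z.1.2.2
      rw [tr, Matrix.trace_eq_neg_charpoly_nextCoeff]
  · intro t ht t' ht' heq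
    obtain ⟨ρ, hρ, hρT, rfl⟩ := ht
    obtain ⟨ρ', hρ', hρT', rfl⟩ := ht'
    funext g
    exact hZ2 ρ ρ' hρ hρ' (fun z hz => congrFun heq ⟨z, hz⟩) g

/-- **The level.** -/
theorem level (p : ℕ) [Fact p.Prime] [NormedAlgebra ℚ_[p] k] [FiniteDimensional ℚ_[p] k]
    (n N : ℕ) (S : Finset ℕ) (hS : ∀ q ∈ S, q.Prime) (Φ Ψ : Ideal (𝓞 F) → Set k[X])
    (hΦ : ∀ v, (Φ v).Finite) (hΨ : ∀ v, (Ψ v).Finite) :
    ∃ (T : Finset ℕ) (m : ℕ), (∀ q ∈ T, q.Prime ∧ q ∉ S) ∧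
      ∀ (R : F.fixingSubgroup →* GL (Fin n) k) (W : F.fixingSubgroup →* GL (Fin N) k),
        Adm S R → (∀ q ∈ T, At Φ R q) → Irr (mt R) →
        Adm S W → (∀ q ∈ T, At Ψ W q) → Occ p m R W → IsSub (mt R) (mt W) := by
  classical
  obtain ⟨T₁, hT₁, h1⟩ := finite_traces p n S hS Φ hΦ
  obtain ⟨T₂, hT₂, h2⟩ := finite_traces p N S hS Ψ hΨ
  choose l hl using fun (s t : F.fixingSubgroup → k) => exists_level (p := p) s t n N
  refine ⟨T₁ ∪ T₂, h1.toFinset.sup fun s => h2.toFinset.sup fun t => l s t, ?_, ?_⟩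
  · intro q hq
    rcases Finset.mem_union.1 hq with h | h
    · exact hT₁ q h
    · exact hT₂ q h
  · intro R W hR hR' hirr hW hW' hocc
    have h3 : tr R ∈ h1.toFinset := h1.mem_toFinset.2
      ⟨R, hR, fun q hq => hR' q (Finset.mem_union_left _ hq), rfl⟩
    have h4 : tr W ∈ h2.toFinset := h2.mem_toFinset.2
      ⟨W, hW, fun q hq => hW' q (Finset.mem_union_right _ hq), rfl⟩
    refine hl (tr R) (tr W) R W (fun _ => rfl) (fun _ => rfl) hirr (hocc.mono ?_)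
    calc l (tr R) (tr W) ≤ h2.toFinset.sup fun t => l (tr R) t :=
          Finset.le_sup (f := fun t => l (tr R) t) h4
      _ ≤ _ := Finset.le_sup (f := fun s => h2.toFinset.sup fun t => l s t) h3

end Pool.Agent.H52.TL
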